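import Pool.Agent.Lib.MP_cfcc59_co.ADS.Geo
import Pool.Agent.Lib.MP_cfcc59_co.ADS.Test
import Pool.Agent.Lib.MP_cfcc59_co.ADS.Exist
import Pool.Agent.Lib.MP_cfcc59_co.ADS.Count

set_option autoImplicit false

/-!
# MP_cfcc59_co: the orders of the planes with an abelian collineation group of type (d)

Every prime is such an order, and the number of non-prime `n ≤ N` which are such orders is
`O(N / (log N) ^ 2)`: the prime power conjecture for abelian affine difference sets holds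
asymptotically.
-/

namespace Pool.Agent.Results.MP_cfcc59_co.TypeDOrders

open Pool.Agent.ADS Finset

theorem result : (∀ q : ℕ, q.Prime → TypeD q) ∧ ∃ C : ℝ, ∀ N : ℕ, 2 ≤ N →
    (Set.ncard {n : ℕ | n ≤ N ∧ ¬ n.Prime ∧ TypeD n} : ℝ) ≤ C * N / Real.log N ^ 2 := by
  classical
  refine ⟨fun q hq => typeD_of_prime hq, ?_⟩
  obtain ⟨C, hC, h⟩ := count_bad
  refine ⟨C, fun N hN => le_trans ?_ (h N hN)⟩
  refine Nat.cast_le.2 ?_
  rw [← Set.ncard_coe_finset]
  apply Set.ncard_le_ncard _ (Finset.finite_toSet _)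
  intro n hn
  obtain ⟨h2, h3, h4⟩ := hn
  obtain ⟨G, iG, iF, iD, N', D, hA⟩ := exists_aff h4
  have h2n := hA.hn
  rw [mem_coe, mem_filter, mem_Icc]
  refine ⟨⟨h2n, h2⟩, h3, fun w hw hwn => test hA (Nat.minFac_prime (by omega))
    (Nat.minFac_dvd n) ?_ hw ?_⟩
  · have hco : Nat.Coprime n.minFac (n + 1) := by
      have h5 : Nat.Coprime n (n + 1) := by simp
      exact Nat.Coprime.coprime_dvd_left (Nat.minFac_dvd n) h5
    have h6 := Nat.ModEq.pow_totient hco
    exact (Nat.modEq_iff_dvd' (Nat.one_le_pow _ _ (Nat.minFac_pos n))).1 h6.symm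
  · have : n ^ 2 - 1 = (n - 1) * (n + 1) := by
      obtain ⟨m, rfl⟩ : ∃ m, n = m + 1 := ⟨n - 1, by omega⟩
      simp only [Nat.add_sub_cancel]
      rw [Nat.sub_eq_iff_eq_add (by nlinarith)]
      ring
    rw [this]
    exact dvd_mul_of_dvd_left hwn _

end Pool.Agent.Results.MP_cfcc59_co.TypeDOrders
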